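import Pool.Agent.Helper35.HSF.StA

/-!
Project HSF, module ACL: closures of components of a positivity set.
-/

set_option autoImplicit false

namespace Pool.Agent.Helper16.HSF

open Helper35.HSF Helper35.PI Helper35.PI2 Helper32.CL Helper35.MS
open scoped Topology
open Set Filter

theorem hACL : StACL := by
  intro M _ _ φ hφ hL x hx C hC
  have hPo : IsOpen {y | 0 < φ y} := isOpen_lt continuous_const hφ
  have hCo : IsOpen C := by rw [hC]; exact hPo.connectedComponentIn
  have hCP : C ⊆ {y | 0 < φ y} := by rw [hC]; exact connectedComponentIn_subset _ _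
  have hcl0 : IsClosed {y | 0 ≤ φ y} := isClosed_le continuous_const hφ
  have hclC : closure C ⊆ {y | 0 ≤ φ y} :=
    closure_minimal (fun y hy => (show (0:ℝ) ≤ φ y from le_of_lt (hCP hy))) hcl0
  have hlast : ∀ y, 0 < φ y → y ∉ C → y ∉ closure C := by
    intro y hy hyC hycl
    have hC'o : IsOpen (connectedComponentIn {y | 0 < φ y} y) := hPo.connectedComponentIn
    have hyC' : y ∈ connectedComponentIn {y | 0 < φ y} y := mem_connectedComponentIn hy
    obtain ⟨z, hzC', hzC⟩ := mem_closure_iff.1 hycl _ hC'o hyC'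
    rw [hC] at hzC
    have h1 := connectedComponentIn_eq hzC
    have h2 := connectedComponentIn_eq hzC'
    apply hyC
    rw [hC, h1, ← h2]
    exact hyC'
  have hkey : ∀ z ∈ closure C, ∃ B, IsOpen B ∧ z ∈ B ∧ B ∩ {y | 0 ≤ φ y} ⊆ closure C := by
    intro z hz
    have hz0 : 0 ≤ φ z := hclC hz
    rcases hz0.lt_or_eq with hzp | hz0'
    · have hzC : z ∈ C := by
        by_contra hzC
        exact hlast z hzp hzC hz
      exact ⟨C, hCo, hzC, fun y hy => subset_closure hy.1⟩
    · rcases hL z hz0'.symm with ⟨B, hB, hBn⟩ | h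
      · exfalso
        obtain ⟨y, hyB, hyC⟩ := mem_closure_iff_nhds.1 hz B hB
        have hyp : 0 < φ y := hCP hyC
        have hyz : y ≠ z := by
          rintro rfl
          rw [← hz0'] at hyp
          exact lt_irrefl _ hyp
        have := hBn y hyB hyz
        linarith
      · obtain ⟨B, hBo, hzB, -, hBpre, hBcl⟩ := h univ univ_mem
        refine ⟨B, hBo, hzB, fun y hy => ?_⟩
        obtain ⟨w, hwB, hwC⟩ := mem_closure_iff.1 hz B hBo hzB
        have hsub : B ∩ {y | 0 < φ y} ⊆ C := by
          have hw : w ∈ B ∩ {y | 0 < φ y} := ⟨hwB, hCP hwC⟩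
          have h1 := hBpre.subset_connectedComponentIn hw (inter_subset_right)
          rw [hC] at hwC ⊢
          rw [connectedComponentIn_eq hwC]
          exact h1
        exact closure_mono hsub (hBcl hy)
  refine ⟨hCo, hclC, ?_, hlast⟩
  apply isClosed_of_closure_subset
  intro z hz
  have hz0 : 0 ≤ φ z := by
    have : closure ({y | 0 ≤ φ y} \ closure C) ⊆ {y | 0 ≤ φ y} :=
      closure_minimal Set.sdiff_subset hcl0
    exact this hz
  refine ⟨hz0, fun hzc => ?_⟩
  obtain ⟨B, hBo, hzB, hBs⟩ := hkey z hzc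
  obtain ⟨y, hyB, hyD⟩ := mem_closure_iff.1 hz B hBo hzB
  exact hyD.2 (hBs ⟨hyB, hyD.1⟩)

end Pool.Agent.Helper16.HSF
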