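import Mathlib
import Pool.Agent.Helper35.HSF.StF

/-!
Project HSF (MP_925021_gt), module FOS: the oscillation of the mean curvature.
-/

set_option autoImplicit false

namespace Helper16.HSF

open Helper35.HSF Helper35.MS Helper35.PI Helper35.PI2 Helper32.CL
open scoped ContDiff Manifold Topology ENNReal BigOperators
open MeasureTheory Set Filter

/-- the choice of the small parameters -/
private theorem choose_par (C K₁ η : ℝ) (hC : 0 < C) (hK : 0 < K₁) (hη : 0 < η) :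
    ∃ δ : ℝ, 0 < δ ∧ δ ≤ 1 / 4 ∧ 2 * δ * K₁ ≤ η / (4 * Real.sqrt C) := by
  have hc : 0 < Real.sqrt C := Real.sqrt_pos.mpr hC
  refine ⟨min (1 / 4) (η / (8 * K₁ * Real.sqrt C)), lt_min (by norm_num) (by positivity),
    min_le_left _ _, ?_⟩
  have h1 : min (1 / 4) (η / (8 * K₁ * Real.sqrt C)) ≤ η / (8 * K₁ * Real.sqrt C) :=
    min_le_right _ _
  calc 2 * min (1 / 4) (η / (8 * K₁ * Real.sqrt C)) * K₁
      ≤ 2 * (η / (8 * K₁ * Real.sqrt C)) * K₁ := by
        apply mul_le_mul_of_nonneg_right _ hK.le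
        linarith
    _ = η / (4 * Real.sqrt C) := by
        field_simp
        ring

/-- the mean of the positive part, controlled by the variance -/
private theorem int_bound {M : Type} [MeasurableSpace M] (μ : Measure M) [IsFiniteMeasure μ]
    (h g : M → ℝ) (l lam a v : ℝ) (hlam : 0 < lam) (ha : a = μ.real univ)
    (h0 : 0 ≤ a) (hv : (∫ q, (h q - l) ^ 2 ∂μ) ≤ a * v) (hvl : v ≤ lam ^ 2)
    (hi : Integrable (fun q => (h q - l) ^ 2) μ) (hg : ∀ q, g q ≤ |h q - l|)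
    (hg0 : ∀ q, 0 ≤ g q) :
    ∫ q, g q ∂μ ≤ a * lam := by
  have h1 : ∫ q, g q ∂μ ≤ ∫ q, (lam / 2 + (h q - l) ^ 2 * (1 / (2 * lam))) ∂μ := by
    apply integral_mono_of_nonneg
    · exact Filter.Eventually.of_forall hg0
    · exact (integrable_const _).add (hi.mul_const _)
    · refine Filter.Eventually.of_forall (fun q => ?_)
      refine (hg q).trans ?_
      have h2 : 0 ≤ (|h q - l| - lam) ^ 2 := sq_nonneg _
      have h3 : |h q - l| ^ 2 = (h q - l) ^ 2 := sq_abs _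
      have h4 : 2 * lam * |h q - l| ≤ lam ^ 2 + (h q - l) ^ 2 := by nlinarith
      show |h q - l| ≤ lam / 2 + (h q - l) ^ 2 * (1 / (2 * lam))
      have h5 : lam / 2 + (h q - l) ^ 2 * (1 / (2 * lam))
          = (lam ^ 2 + (h q - l) ^ 2) / (2 * lam) := by
        field_simp
      rw [h5, le_div_iff₀ (by positivity)]
      linarith
  refine h1.trans ?_
  rw [integral_add (integrable_const _) (hi.mul_const _), integral_mul_const, integral_const,
    ← ha, smul_eq_mul]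
  have h6 : (∫ q, (h q - l) ^ 2 ∂μ) * (1 / (2 * lam)) ≤ a * lam ^ 2 * (1 / (2 * lam)) := by
    apply mul_le_mul_of_nonneg_right _ (by positivity)
    exact hv.trans (mul_le_mul_of_nonneg_left hvl h0)
  have h7 : a * lam ^ 2 * (1 / (2 * lam)) = a * (lam / 2) := by
    field_simp
  rw [h7] at h6
  linarith

/-- continuity at a fixed time -/
private theorem smj_cont {n : ℕ} {M : Type} [TopologicalSpace M] [ChartedSpace (EE n) M]
    (T : ℝ) (w : M → ℝ → ℝ) (hw : SmJ n (Ioo 0 T) w) (t : ℝ) (ht : t ∈ Ioo 0 T) :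
    Continuous (fun q => w q t) := by
  have h1 : ContinuousOn (fun z : M × ℝ => w z.1 z.2) (univ ×ˢ Ioo 0 T) := hw.continuousOn
  have h2 : Continuous (fun q : M => ((q, t) : M × ℝ)) := by fun_prop
  exact h1.comp_continuous h2 (fun q => ⟨mem_univ _, ht⟩)

theorem hFOS (hFGT : StFGT) (hFAB : StFAB) (hFLD : StFLD) (hMVN : StMVN) (hPPN : StPPN)
    (hEVF : StEVF) (hFBS : StFBS) (hHTR : StHTR) (hMUJ : StMUJ) (hV5 : StV5) : StFOS := by
  intro n hn M _ _ _ _ _ _ T F ν ts ε x C α hX η hη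
  letI : MeasurableSpace M := borel M
  haveI : BorelSpace M := ⟨rfl⟩
  haveI : SecondCountableTopology M := ChartedSpace.secondCountable_of_sigmaCompact (EE n) M
  have hn1 : 1 ≤ n := by omega
  have hnR : (0 : ℝ) < n := by exact_mod_cast (show 0 < n by omega)
  obtain ⟨c, χ, hpu⟩ := hV5 n M
  obtain ⟨Cn, hCn, hMVC⟩ := hMVN n hn1
  have hD := hX.d
  have hfl := hD.fl
  have him : IsImmJ (n := n) (Ioo 0 T) F := hfl.mcf.toIsImmJ
  have hts0 : 0 < ts := hD.ts0.1
  have htsT : ts < T := hD.ts0.2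
  have hC1 := hX.C1
  have hCp : 0 < C := by linarith
  have hsC : 0 < Real.sqrt C := Real.sqrt_pos.mpr hCp
  have hsetF : SetupF n (Ioo 0 T) F c χ := ⟨hfl.mcf, hpu⟩
  obtain ⟨sf, -, hmu⟩ := hMUJ n (n + 2) M (Ioo 0 T) F c χ hsetF.toJ
  obtain ⟨hSH, -, hE⟩ := hEVF n hn1 M (Ioo 0 T) F ν hfl
  obtain ⟨K, hK, hAB⟩ := hFAB n hn M T F ν ts ε x C α c χ hX hpu
  obtain ⟨K', hK', hLD⟩ := hFLD n hn M T F ν ts ε x C α c χ hX hpu
  have hT1 : T ≤ 1 := by
    have h1 := hD.T1
    have h2 : (1 : ℝ) ≤ n := by exact_mod_cast hn1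
    nlinarith
  have hr0 : 0 < rr n T := by
    unfold rr
    linarith [hD.T1]
  set r₀ : ℝ := rr n T with hr₀
  set K₁ : ℝ := (C + 2 * n / r₀) * Real.sqrt C with hK₁
  have hK₁p : 0 < K₁ := by
    rw [hK₁]
    positivity
  obtain ⟨δ, hδ, hδ4, hδK⟩ := choose_par C K₁ η hCp hK₁p hη
  set K₃ : ℝ := Cn * (K * (3 / (2 * δ)) ^ ((n : ℝ) / 2)) with hK₃
  have hK₃p : 0 < K₃ := by
    rw [hK₃]
    have : 0 < (3 / (2 * δ)) ^ ((n : ℝ) / 2) := Real.rpow_pos_of_pos (by positivity) _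
    positivity
  set om : ℝ := η / (4 * Real.sqrt C * K₃) with hom
  have homp : 0 < om := by rw [hom]; positivity
  obtain ⟨t₂, ht₂, hgood⟩ := hFGT n hn M T F ν ts ε x C α c χ hX hpu δ (om ^ 2) hδ hδ4
    (by positivity)
  refine ⟨t₂, ht₂, ?_⟩
  intro t ht
  have htI : t ∈ Ico ts T := ⟨ht₂.1.trans ht.1, ht.2⟩
  have htJ : t ∈ Ioo 0 T := ⟨by linarith [htI.1], ht.2⟩
  obtain ⟨t', ht', htst', hvr⟩ := hgood t ht
  set s : ℝ := T - t with hs
  have hsp : 0 < s := by rw [hs]; linarith [ht.2]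
  have hs1 : s ≤ 1 := by rw [hs]; linarith [htJ.1]
  set σ : ℝ := Real.sqrt s with hσ
  have hσp : 0 < σ := Real.sqrt_pos.mpr hsp
  have hσ2 : σ ^ 2 = s := Real.sq_sqrt hsp.le
  have htt : t' < t := by
    have h1 := ht'.2
    have : 0 < δ * s := by positivity
    linarith
  have ht'I : t' ∈ Ico ts T := ⟨htst', by linarith [ht.2]⟩
  have ht'J : t' ∈ Ioo 0 T := ⟨by linarith, by linarith [ht.2]⟩
  have hIcc : Icc t' t ⊆ Ioo 0 T := fun τ hτ =>
    ⟨by linarith [hτ.1, ht'J.1], by linarith [hτ.2, ht.2]⟩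
  have hIco : ∀ τ ∈ Icc t' t, τ ∈ Ico ts T := fun τ hτ =>
    ⟨by linarith [hτ.1], by linarith [hτ.2, ht.2]⟩
  -- pointwise facts
  have hHp : ∀ τ ∈ Ico ts T, ∀ q, 0 < Hs n F ν q τ := by
    intro τ hτ q
    have h1 := (hFBS n hn1 M T F ν ts ε hD τ hτ q q).1
    have h2 : 0 < (n : ℝ) * ε := mul_pos hnR hD.ε0
    linarith
  have hHe : ∀ τ ∈ Ico ts T, ∀ q, eN n F q τ = Hs n F ν q τ ^ 2 := by
    intro τ hτ q
    exact (hE q τ ⟨by linarith [hτ.1], hτ.2⟩).2.1
  have hHup : ∀ τ ∈ Icc t' t, ∀ q, Hs n F ν q τ ≤ Real.sqrt C / σ := by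
    intro τ hτ q
    have h1 := hX.up τ (hIco τ hτ) q
    have h2 : s ≤ T - τ := by rw [hs]; linarith [hτ.2]
    have h3 := hHe τ (hIco τ hτ) q
    have h4 : s * Hs n F ν q τ ^ 2 ≤ C := by
      rw [h3] at h1
      have := mul_le_mul_of_nonneg_right h2 (sq_nonneg (Hs n F ν q τ))
      linarith
    rw [le_div_iff₀ hσp]
    apply Real.le_sqrt_of_sq_le
    rw [mul_pow, hσ2]
    linarith
  have hh2 : ∀ τ ∈ Icc t' t, ∀ q, h2N n F q τ ≤ C / s := by
    intro τ hτ q
    have h1 := hX.up τ (hIco τ hτ) q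
    have h2 : s ≤ T - τ := by rw [hs]; linarith [hτ.2]
    have h3 := (hFBS n hn1 M T F ν ts ε hD τ (hIco τ hτ) q q).2.2.2.2.2.2.2.1
    have h4 : 0 ≤ eN n F q τ := by
      rw [hHe τ (hIco τ hτ) q]; positivity
    rw [le_div_iff₀ hsp]
    have h5 := mul_le_mul_of_nonneg_right h2 h4
    have h6 := mul_le_mul_of_nonneg_right h3 hsp.le
    linarith
  have hh0 : ∀ τ ∈ Icc t' t, ∀ q, 0 ≤ h2N n F q τ := by
    intro τ hτ q
    have h1 := hFBS n hn1 M T F ν ts ε hD τ (hIco τ hτ) q q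
    exact h1.2.2.2.2.2.1.trans h1.2.2.2.2.2.2.1
  have hrr : ∀ τ ∈ Icc t' t, r₀ ≤ rr n τ := by
    intro τ hτ
    rw [hr₀]
    unfold rr
    have h1 : τ ≤ T := by linarith [hτ.2, ht.2]
    have h2 := mul_le_mul_of_nonneg_left h1 (show (0 : ℝ) ≤ 2 * n by positivity)
    linarith
  have hheat : ∀ q, ∀ τ ∈ Icc t' t, htN n F (Hs n F ν) q τ ≤ K₁ / (s * σ) ∧
      0 ≤ htN n F (Hs n F ν) q τ := by
    intro q τ hτ
    have h1 := (hE q τ (hIcc hτ)).2.2.2.2.1
    rw [h1]
    have h2 := hh2 τ hτ q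
    have h3 := hh0 τ hτ q
    have h4 := hrr τ hτ
    have h5 := hHup τ hτ q
    have h6 := hHp τ (hIco τ hτ) q
    have h7 : 0 ≤ 2 * (n : ℝ) / rr n τ := by
      have : 0 < rr n τ := by linarith
      positivity
    have h8 : 2 * (n : ℝ) / rr n τ ≤ 2 * n / r₀ := div_le_div_of_nonneg_left (by positivity) hr0 h4
    have h9 : 2 * (n : ℝ) / r₀ ≤ 2 * n / r₀ / s := by
      rw [le_div_iff₀ hsp]
      exact mul_le_of_le_one_right (by positivity) hs1
    refine ⟨?_, mul_nonneg (add_nonneg h3 h7) h6.le⟩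
    have h10 : h2N n F q τ + 2 * n / rr n τ ≤ (C + 2 * n / r₀) / s := by
      rw [add_div]
      linarith
    calc (h2N n F q τ + 2 * n / rr n τ) * Hs n F ν q τ
        ≤ (C + 2 * n / r₀) / s * (Real.sqrt C / σ) :=
          mul_le_mul h10 h5 h6.le (by positivity)
      _ = K₁ / (s * σ) := by
          rw [hK₁]
          field_simp
  -- the measure at time `t'`
  haveI : IsFiniteMeasure (muM n F c χ t') := ⟨(hmu t' ht'J).1⟩
  have hcH : Continuous (fun q => Hs n F ν q t') := smj_cont T (Hs n F ν) hSH t' ht'J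
  obtain ⟨-, har, hvr0, -⟩ := hLD t' ht'I
  set a : ℝ := arN n F c χ t' with ha
  set l : ℝ := hbN n F ν c χ t' with hl
  have hvdef : (∫ q, (Hs n F ν q t' - l) ^ 2 ∂muM n F c χ t') = a * vrN n F ν c χ t' := by
    unfold vrN
    rw [← ha, ← hl]
    field_simp
  have hi2 : Integrable (fun q => (Hs n F ν q t' - l) ^ 2) (muM n F c χ t') :=
    ((hmu t' ht'J).2.2 _ (by fun_prop)).1
  set lam : ℝ := om / σ with hlam
  have hlamp : 0 < lam := by rw [hlam]; positivity
  have hvl : vrN n F ν c χ t' ≤ lam ^ 2 := by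
    rw [hlam, div_pow, hσ2, le_div_iff₀ hsp]
    linarith
  have hT' : T - t' ≤ 3 * s / 2 := by
    have h1 := ht'.1
    have h2 : 2 * δ * s ≤ s / 2 := by nlinarith
    rw [hs] at *
    linarith
  have hT'0 : 0 < T - t' := by linarith [ht'J.2]
  have haK : a ≤ K * (3 * s / 2) ^ ((n : ℝ) / 2) := by
    refine (hAB t' ht'I).2.1.trans ?_
    apply mul_le_mul_of_nonneg_left _ hK.le
    exact Real.rpow_le_rpow hT'0.le hT' (by positivity)
  have hdt : δ * s ≤ t - t' := by linarith [ht'.2]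
  have hdt2 : t - t' ≤ 2 * δ * s := by linarith [ht'.1]
  have hdt0 : 0 < δ * s := by positivity
  have hpw : (t - t') ^ (-(n : ℝ) / 2) ≤ (δ * s) ^ (-(n : ℝ) / 2) :=
    Real.rpow_le_rpow_of_nonpos hdt0 hdt (by
      have : 0 ≤ (n : ℝ) / 2 := by positivity
      linarith)
  have hpw0 : 0 ≤ (t - t') ^ (-(n : ℝ) / 2) := Real.rpow_nonneg (by linarith) _
  -- the main bound of the integral term
  have hmain : ∀ g : M → ℝ, (∀ q, g q ≤ |Hs n F ν q t' - l|) → (∀ q, 0 ≤ g q) →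
      Cn * (t - t') ^ (-(n : ℝ) / 2) * ∫ q, g q ∂muM n F c χ t' ≤ K₃ * om / σ := by
    intro g hg hg0
    have h1 := int_bound (muM n F c χ t') (fun q => Hs n F ν q t') g l lam a
      (vrN n F ν c χ t') hlamp rfl har.le hvdef.le hvl hi2 hg hg0
    have h2 : 0 ≤ ∫ q, g q ∂muM n F c χ t' := integral_nonneg hg0
    calc Cn * (t - t') ^ (-(n : ℝ) / 2) * ∫ q, g q ∂muM n F c χ t'
        ≤ Cn * (δ * s) ^ (-(n : ℝ) / 2) * (K * (3 * s / 2) ^ ((n : ℝ) / 2) * lam) := by
          apply mul_le_mul _ _ h2 _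
          · exact mul_le_mul_of_nonneg_left hpw hCn.le
          · exact h1.trans (mul_le_mul_of_nonneg_right haK hlamp.le)
          · exact mul_nonneg hCn.le (Real.rpow_nonneg hdt0.le _)
      _ = K₃ * om / σ := by
          have h3 : (δ * s) ^ (-(n : ℝ) / 2) * (3 * s / 2) ^ ((n : ℝ) / 2)
              = (3 / (2 * δ)) ^ ((n : ℝ) / 2) := by
            rw [neg_div, Real.rpow_neg hdt0.le, mul_comm, ← div_eq_mul_inv,
              ← Real.div_rpow (by positivity) hdt0.le]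
            congr 1
            field_simp
          rw [hK₃, hlam, ← h3]
          ring
  have hKom : K₃ * om = η / (4 * Real.sqrt C) := by
    rw [hom]
    field_simp
  have hupper : ∀ p, Hs n F ν p t ≤ l + η / (2 * Real.sqrt C) / σ := by
    intro p
    have h1 := hPPN n Cn hMVC hCn (n + 2) M (Ioo 0 T) F c χ hsetF (Hs n F ν) (K₁ / (s * σ)) l t' t
      hSH htt hIcc (fun q τ hτ => (hheat q τ hτ).1) p
    have h2 := hmain (fun q => max 0 (Hs n F ν q t' - l))
      (fun q => max_le (abs_nonneg _) (le_abs_self _)) (fun q => le_max_left _ _)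
    have h3 : K₁ / (s * σ) * (t - t') ≤ η / (4 * Real.sqrt C) / σ := by
      calc K₁ / (s * σ) * (t - t') ≤ K₁ / (s * σ) * (2 * δ * s) :=
            mul_le_mul_of_nonneg_left hdt2 (by positivity)
        _ = 2 * δ * K₁ / σ := by field_simp
        _ ≤ η / (4 * Real.sqrt C) / σ := div_le_div_of_nonneg_right hδK hσp.le
    rw [hKom] at h2
    have h4 : η / (2 * Real.sqrt C) / σ
        = η / (4 * Real.sqrt C) / σ + η / (4 * Real.sqrt C) / σ := by
      field_simp
      ring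
    rw [h4]
    linarith
  obtain ⟨hSm, hSm2⟩ := (hHTR n (n + 2) M (Ioo 0 T) F him (Hs n F ν) (Hs n F ν) hSH hSH).2.1 (-1) 0
  have hlower : ∀ p, l - η / (2 * Real.sqrt C) / σ ≤ Hs n F ν p t := by
    intro p
    have h1 := hPPN n Cn hMVC hCn (n + 2) M (Ioo 0 T) F c χ hsetF
      (fun q t => -1 * Hs n F ν q t + 0 * Hs n F ν q t) 0 (-l) t' t
      hSm htt hIcc (fun q τ hτ => by
        rw [(hSm2 q τ (hIcc hτ)).2]
        linarith [(hheat q τ hτ).2]) p
    have h2 := hmain (fun q => max 0 (-1 * Hs n F ν q t' + 0 * Hs n F ν q t' - -l))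
      (fun q => max_le (abs_nonneg _) (by
        have := neg_abs_le (Hs n F ν q t' - l)
        linarith)) (fun q => le_max_left _ _)
    rw [hKom] at h2
    have h4 : η / (2 * Real.sqrt C) / σ
        = η / (4 * Real.sqrt C) / σ + η / (4 * Real.sqrt C) / σ := by
      field_simp
      ring
    have h5 : 0 ≤ η / (4 * Real.sqrt C) / σ := by positivity
    rw [h4]
    linarith
  intro p q
  have h1 := hupper p
  have h2 := hlower q
  have h3 : 1 / (Real.sqrt C * σ) ≤ Hs n F ν q t := by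
    have h4 := hX.lo t htI q
    rw [hHe t htI q] at h4
    have h5 := hHp t htI q
    rw [div_le_iff₀ (by positivity)]
    have h6 : (Hs n F ν q t * (Real.sqrt C * σ)) ^ 2 = C * (s * Hs n F ν q t ^ 2) := by
      rw [mul_pow, mul_pow, Real.sq_sqrt hCp.le, hσ2]
      ring
    have h7 : 0 ≤ Hs n F ν q t * (Real.sqrt C * σ) := by positivity
    by_contra hcon
    push Not at hcon
    have h8 : (Hs n F ν q t * (Real.sqrt C * σ)) ^ 2 < 1 := by nlinarith
    rw [h6] at h8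
    linarith
  have h9 : η / (2 * Real.sqrt C) / σ + η / (2 * Real.sqrt C) / σ
      = η * (1 / (Real.sqrt C * σ)) := by
    field_simp
    ring
  have h10 := mul_le_mul_of_nonneg_left h3 hη.le
  linarith

end Helper16.HSF
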