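import Pool.Agent.Helper35.HSF.StC

/-!
Project HSF, module LNE: a great circle does not meet a closed hypersurface of an open hemisphere exactly
once, transversally.
-/

set_option autoImplicit false

namespace Pool.Agent.Helper16.HSF

open Helper35.HSF Helper35.PI Helper35.PI2 Helper32.CL Helper35.MS
open scoped Topology ContDiff Manifold
open Set Filter MeasureTheory

private lemma exE {n : ℕ} (hn : 1 ≤ n) (a b : EE (n + 2)) :
    ∃ e : EE (n + 2), ‖e‖ = 1 ∧ (inner ℝ a e : ℝ) = 0 ∧ (inner ℝ b e : ℝ) = 0 := by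
  classical
  have h1 : Module.finrank ℝ (Submodule.span ℝ (({a, b} : Finset (EE (n + 2))) : Set (EE (n + 2))))
      ≤ 2 := (finrank_span_finset_le_card _).trans Finset.card_le_two
  have h2 := Submodule.finrank_add_finrank_orthogonal
    (Submodule.span ℝ (({a, b} : Finset (EE (n + 2))) : Set (EE (n + 2))))
  have h3 : Module.finrank ℝ (EE (n + 2)) = n + 2 := by simp
  rw [h3] at h2
  have h4 : 0 < Module.finrank ℝ
      (Submodule.span ℝ (({a, b} : Finset (EE (n + 2))) : Set (EE (n + 2))))ᗮ := by omega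
  obtain ⟨⟨x, hx⟩, hx0⟩ := Module.finrank_pos_iff_exists_ne_zero.1 h4
  have hx1 : x ≠ 0 := by
    intro h
    exact hx0 (Subtype.ext h)
  have hxn : ‖x‖ ≠ 0 := norm_ne_zero_iff.2 hx1
  rw [Submodule.mem_orthogonal] at hx
  have ha : (inner ℝ a x : ℝ) = 0 := hx a (Submodule.subset_span (by simp))
  have hb : (inner ℝ b x : ℝ) = 0 := hx b (Submodule.subset_span (by simp))
  refine ⟨(‖x‖⁻¹ : ℝ) • x, ?_, ?_, ?_⟩
  · rw [norm_smul, norm_inv, norm_norm, inv_mul_cancel₀ hxn]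
  · rw [inner_smul_right, ha, mul_zero]
  · rw [inner_smul_right, hb, mul_zero]

private lemma prim (η : ℝ → ℝ) (hη : ContDiff ℝ ∞ η) :
    ∃ E : ℝ → ℝ, ContDiff ℝ ∞ E ∧ ∀ x, HasDerivAt E (η x) x := by
  have hd : ∀ x, HasDerivAt (fun x => ∫ s in (0 : ℝ)..x, η s) (η x) x := fun x =>
    (hη.continuous.integral_hasStrictDerivAt 0 x).hasDerivAt
  refine ⟨fun x => ∫ s in (0 : ℝ)..x, η s, ?_, hd⟩
  rw [contDiff_infty_iff_deriv]
  refine ⟨fun x => (hd x).differentiableAt, ?_⟩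
  have : deriv (fun x => ∫ s in (0 : ℝ)..x, η s) = η := funext fun x => (hd x).deriv
  rw [this]
  exact hη

private lemma bump : ∃ η : ℝ → ℝ, ContDiff ℝ ∞ η ∧ (∀ x, 0 ≤ η x) ∧ 0 < η 0 ∧
    ∀ x, η x ≠ 0 → |x| < 1 := by
  let f : ContDiffBump (0 : ℝ) := ⟨1 / 2, 1, by norm_num, by norm_num⟩
  refine ⟨f, f.contDiff, fun x => f.nonneg, ?_, ?_⟩
  · have : f 0 = 1 := f.one_of_mem_closedBall (by simp [f])
    rw [this]; exact one_pos
  · intro x hx
    have : x ∈ Function.support (f : ℝ → ℝ) := hx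
    rw [f.support_eq] at this
    simpa [f, Real.dist_eq] using this

private lemma PsiEx (δ : ℝ) (hδ : 0 < δ) : ∃ (Ψ : ℝ × ℝ → ℝ) (φ : ℝ × ℝ → ℝ), ContDiff ℝ ∞ Ψ ∧
    Continuous φ ∧ (∀ z, fderiv ℝ Ψ z (1, 0) = φ z) ∧ (∀ z, 0 ≤ φ z) ∧ 0 < φ (0, 0) ∧
    ∀ z, φ z ≠ 0 → z.1 ^ 2 + z.2 < 2 * δ ^ 2 := by
  obtain ⟨η, hη, h0, h1, h2⟩ := bump
  obtain ⟨E, hE, hE'⟩ := prim η hη
  have hΨ : ContDiff ℝ ∞ (fun z : ℝ × ℝ => E (z.1 / δ) * η (z.2 / δ ^ 2)) :=
    (hE.comp (contDiff_fst.div_const δ)).mul (hη.comp (contDiff_snd.div_const (δ ^ 2)))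
  refine ⟨fun z => E (z.1 / δ) * η (z.2 / δ ^ 2), fun z => η (z.1 / δ) / δ * η (z.2 / δ ^ 2),
    hΨ, ?_, ?_, ?_, ?_, ?_⟩
  · exact ((hη.continuous.comp (continuous_fst.div_const δ)).div_const δ).mul
      (hη.continuous.comp (continuous_snd.div_const (δ ^ 2)))
  · intro z
    have k1 : HasDerivAt (fun x : ℝ => ((x, z.2) : ℝ × ℝ)) (1, 0) z.1 :=
      (hasDerivAt_id z.1).prodMk (hasDerivAt_const z.1 z.2)
    have k2 : HasFDerivAt (fun z : ℝ × ℝ => E (z.1 / δ) * η (z.2 / δ ^ 2))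
        (fderiv ℝ (fun z : ℝ × ℝ => E (z.1 / δ) * η (z.2 / δ ^ 2)) z) (z.1, z.2) :=
      ((hΨ.differentiable (by simp)) z).hasFDerivAt
    have k3 := k2.comp_hasDerivAt z.1 k1
    have k4 : HasDerivAt (fun x : ℝ => E (x / δ) * η (z.2 / δ ^ 2))
        (η (z.1 / δ) / δ * η (z.2 / δ ^ 2)) z.1 := by
      have k5 : HasDerivAt (fun x : ℝ => E (x / δ)) (η (z.1 / δ) * (1 / δ)) z.1 :=
        (hE' (z.1 / δ)).comp z.1 ((hasDerivAt_id z.1).div_const δ)
      have k6 := k5.mul_const (η (z.2 / δ ^ 2))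
      have k7 : η (z.1 / δ) / δ * η (z.2 / δ ^ 2) = η (z.1 / δ) * (1 / δ) * η (z.2 / δ ^ 2) := by
        ring
      rw [k7]
      exact k6
    exact k3.unique k4
  · intro z
    exact mul_nonneg (div_nonneg (h0 _) hδ.le) (h0 _)
  · show 0 < η (0 / δ) / δ * η (0 / δ ^ 2)
    rw [zero_div, zero_div]
    positivity
  · intro z hz
    have z1 : η (z.1 / δ) ≠ 0 := by
      intro h
      apply hz
      show η (z.1 / δ) / δ * η (z.2 / δ ^ 2) = 0
      rw [h, zero_div, zero_mul]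
    have z2 : η (z.2 / δ ^ 2) ≠ 0 := by
      intro h
      apply hz
      show η (z.1 / δ) / δ * η (z.2 / δ ^ 2) = 0
      rw [h, mul_zero]
    have w1 := h2 _ z1
    have w2 := h2 _ z2
    rw [abs_div, abs_of_pos hδ, div_lt_one hδ] at w1
    have hδ2 : 0 < δ ^ 2 := by positivity
    rw [abs_div, abs_of_pos hδ2, div_lt_one hδ2] at w2
    have w3 : z.1 ^ 2 < δ ^ 2 := by
      rw [← sq_abs]
      exact pow_lt_pow_left₀ w1 (abs_nonneg _) two_ne_zero
    have w4 : z.2 < δ ^ 2 := lt_of_le_of_lt (le_abs_self _) w2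
    linarith

private lemma nsq2 {N : ℕ} (a b v : EE N) (ha : ‖a‖ = 1) (hb : ‖b‖ = 1)
    (hab : (inner ℝ a b : ℝ) = 0) :
    ‖v - ((inner ℝ v a : ℝ) • a + (inner ℝ v b : ℝ) • b)‖ ^ 2
      = ‖v‖ ^ 2 - (inner ℝ v a : ℝ) ^ 2 - (inner ℝ v b : ℝ) ^ 2 := by
  have haa : (inner ℝ a a : ℝ) = 1 := by rw [real_inner_self_eq_norm_sq, ha]; norm_num
  have hbb : (inner ℝ b b : ℝ) = 1 := by rw [real_inner_self_eq_norm_sq, hb]; norm_num
  have hba : (inner ℝ b a : ℝ) = 0 := by rw [real_inner_comm, hab]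
  rw [← real_inner_self_eq_norm_sq, ← real_inner_self_eq_norm_sq]
  simp only [inner_sub_left, inner_sub_right, inner_add_left, inner_add_right, inner_smul_left,
    inner_smul_right, haa, hbb, hab, hba, real_inner_comm v a, real_inner_comm v b, conj_trivial]
  ring

theorem hLNE (hFLX : StFLX) (hFSJ : StFSJ) (_hMUJ : StMUJ) (hV5 : StV5) : StLNE := by
  intro n hn M _ _ _ _ _ J F ν hH t ht y a b ha hb hab hpos hy hq
  let _ : MeasurableSpace M := borel M
  have _ : BorelSpace M := ⟨rfl⟩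
  have _ : Nonempty M := ⟨y⟩
  have _ : SecondCountableTopology M := ChartedSpace.secondCountable_of_sigmaCompact (EE n) M
  obtain ⟨c, χ, hPU⟩ := hV5 n M
  have hS : SetupJ n J F c χ := ⟨hH.mcf.toIsImmJ, hPU⟩
  have hFc : Continuous (fun q => F q t) :=
    hH.mcf.smooth.continuousOn.comp_continuous (f := fun q : M => ((q, t) : M × ℝ))
      (by fun_prop) (fun q => ⟨mem_univ _, ht⟩)
  have hνc : Continuous (fun q => ν q t) :=
    hH.sν.continuousOn.comp_continuous (f := fun q : M => ((q, t) : M × ℝ))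
      (by fun_prop) (fun q => ⟨mem_univ _, ht⟩)
  have hFac : Continuous (fun q => (inner ℝ (F q t) a : ℝ)) := hFc.inner continuous_const
  have hFbc : Continuous (fun q => (inner ℝ (F q t) b : ℝ)) := hFc.inner continuous_const
  have hνac : Continuous (fun q => (inner ℝ a (ν q t) : ℝ)) := continuous_const.inner hνc
  by_contra hγ
  set γ : ℝ := inner ℝ a (ν y t) with hγd
  -- the function `r`
  set r : M → ℝ := fun q => (‖F q t‖ ^ 2 - (inner ℝ (F q t) a : ℝ) ^ 2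
    - (inner ℝ (F q t) b : ℝ) ^ 2) / (inner ℝ (F q t) b : ℝ) ^ 2 with hr
  have hrc : Continuous r := by
    refine Continuous.div ?_ (hFbc.pow 2) (fun q => pow_ne_zero 2 (hpos q).ne')
    exact ((hFc.norm.pow 2).sub (hFac.pow 2)).sub (hFbc.pow 2)
  have hr0 : ∀ q, 0 ≤ r q := by
    intro q
    refine div_nonneg ?_ (sq_nonneg _)
    rw [← nsq2 a b (F q t) ha hb hab]
    positivity
  have hrz : ∀ q, r q = 0 → q = y := by
    intro q h
    apply hq
    have h1 : ‖F q t‖ ^ 2 - (inner ℝ (F q t) a : ℝ) ^ 2 - (inner ℝ (F q t) b : ℝ) ^ 2 = 0 := by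
      rcases div_eq_zero_iff.1 h with h | h
      · exact h
      · exact absurd h (pow_ne_zero 2 (hpos q).ne')
    rw [← nsq2 a b (F q t) ha hb hab] at h1
    have h2 := norm_eq_zero.1 (pow_eq_zero_iff two_ne_zero |>.1 h1)
    exact sub_eq_zero.1 h2
  set V : Set M := {q | 0 < γ * (inner ℝ a (ν q t) : ℝ)} with hV
  have hVo : IsOpen V := isOpen_lt continuous_const (continuous_const.mul hνac)
  have hyV : y ∈ V := by
    show 0 < γ * γ
    exact mul_self_pos.2 hγ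
  obtain ⟨δ, hδ, hδV⟩ : ∃ δ : ℝ, 0 < δ ∧ ∀ q, q ∉ V → 2 * δ ^ 2 ≤ r q := by
    have hcomp : IsCompact Vᶜ := hVo.isClosed_compl.isCompact
    rcases (Vᶜ).eq_empty_or_nonempty with he | hne
    · refine ⟨1, one_pos, fun q hq' => ?_⟩
      have : q ∈ Vᶜ := hq'
      rw [he] at this
      exact absurd this (notMem_empty q)
    · obtain ⟨q₀, hq₀, hmin⟩ := hcomp.exists_isMinOn hne hrc.continuousOn
      have hpos0 : 0 < r q₀ := by
        refine lt_of_le_of_ne (hr0 q₀) (fun h => ?_)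
        have := hrz q₀ h.symm
        rw [this] at hq₀
        exact hq₀ hyV
      refine ⟨Real.sqrt (r q₀ / 2), Real.sqrt_pos.2 (by positivity), fun q hq' => ?_⟩
      rw [Real.sq_sqrt (by positivity)]
      have := hmin (show q ∈ Vᶜ from hq')
      have h2 : r q₀ ≤ r q := this
      linarith
  obtain ⟨e, he, hae, hbe⟩ := exE hn a b
  have hFec : Continuous (fun q => (inner ℝ (F q t) e : ℝ)) := hFc.inner continuous_const
  obtain ⟨Ψ, φ, hΨ, hφc, hΨφ, hφ0, hφp, hφs⟩ := PsiEx δ hδ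
  have hint := hFLX n M J F ν c χ hH hPU t ht a b e ha hb he hab hae hbe hpos Ψ hΨ
  simp only [hΨφ] at hint
  set z : M → ℝ × ℝ := fun q => ((inner ℝ (F q t) e : ℝ) / inner ℝ (F q t) b,
        (‖F q t‖ ^ 2 - (inner ℝ (F q t) a : ℝ) ^ 2 - (inner ℝ (F q t) b : ℝ) ^ 2
          - (inner ℝ (F q t) e : ℝ) ^ 2) / (inner ℝ (F q t) b : ℝ) ^ 2) with hz
  have hzr : ∀ q, (z q).1 ^ 2 + (z q).2 = r q := by
    intro q
    have hb0 : (inner ℝ (F q t) b : ℝ) ≠ 0 := (hpos q).ne'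
    simp only [hz, hr]
    field_simp
    ring
  have hzc : Continuous z := by
    refine Continuous.prodMk (hFec.div hFbc (fun q => (hpos q).ne')) ?_
    refine Continuous.div ?_ (hFbc.pow 2) (fun q => pow_ne_zero 2 (hpos q).ne')
    exact (((hFc.norm.pow 2).sub (hFac.pow 2)).sub (hFbc.pow 2)).sub (hFec.pow 2)
  set g : M → ℝ := fun q => γ * ((inner ℝ a (ν q t) : ℝ) * φ (z q)
    / (inner ℝ (F q t) b : ℝ) ^ (n + 1)) with hg
  have hgc : Continuous g := by
    refine continuous_const.mul (Continuous.div (hνac.mul (hφc.comp hzc)) (hFbc.pow (n + 1))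
      (fun q => pow_ne_zero _ (hpos q).ne'))
  have hg0 : ∀ q, 0 ≤ g q := by
    intro q
    have hgq : g q = (γ * (inner ℝ a (ν q t) : ℝ)) * (φ (z q)
        / (inner ℝ (F q t) b : ℝ) ^ (n + 1)) := by
      simp only [hg]
      ring
    rw [hgq]
    by_cases hφz : φ (z q) = 0
    · rw [hφz, zero_div, mul_zero]
    · have h1 := hφs (z q) hφz
      rw [hzr q] at h1
      have hqV : q ∈ V := by
        by_contra hqV
        have := hδV q hqV
        linarith
      have h2 : 0 < γ * (inner ℝ a (ν q t) : ℝ) := hqV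
      exact mul_nonneg h2.le (div_nonneg (hφ0 _) (pow_nonneg (hpos q).le _))
  have hgi : ∫ q, g q ∂muM n F c χ t = 0 := by
    simp only [hg]
    rw [integral_const_mul, hint, mul_zero]
  have hgy := hFSJ n (n + 2) M J F c χ hS t ht g hgc hg0 hgi y
  have hFye : (inner ℝ (F y t) e : ℝ) = 0 := by
    rw [hy, inner_add_left, inner_smul_left, inner_smul_left, hae, hbe, mul_zero, mul_zero, add_zero]
  have hzy : z y = (0, 0) := by
    have h1 : (z y).1 = 0 := by
      simp only [hz]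
      rw [hFye, zero_div]
    have h2 : (z y).2 = r y := by
      have := hzr y
      rw [h1] at this
      simpa using this
    have h3 : r y = 0 := by
      have h4 : ‖F y t‖ ^ 2 - (inner ℝ (F y t) a : ℝ) ^ 2 - (inner ℝ (F y t) b : ℝ) ^ 2 = 0 := by
        rw [← nsq2 a b (F y t) ha hb hab, ← hy, sub_self, norm_zero]
        norm_num
      simp only [hr]
      rw [h4, zero_div]
    exact Prod.ext h1 (h2.trans h3)
  have hgpos : 0 < g y := by
    simp only [hg]
    rw [hzy, ← hγd]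
    have h1 : 0 < γ * γ := mul_self_pos.2 hγ
    have h2 : 0 < (inner ℝ (F y t) b : ℝ) ^ (n + 1) := pow_pos (hpos y) _
    have h3 : γ * (γ * φ (0, 0) / (inner ℝ (F y t) b : ℝ) ^ (n + 1))
        = (γ * γ) * (φ (0, 0) / (inner ℝ (F y t) b : ℝ) ^ (n + 1)) := by ring
    rw [h3]
    positivity
  exact absurd hgy hgpos.ne'

end Pool.Agent.Helper16.HSF
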